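import Pool.Agent.X15.SysS.FinP

/-!
# Prime triples and quadruples with one free member, next to almost primes

Let `S` be a finite set of integers, for instance `{2, 6, 8}`, and `m ≥ 0`. For almost all `k` without local obstruction
there are many primes `p` such that `p + k` and all `p + h`, `h ∈ H`, are prime, where `H` is a set of `m` nonzero integers
of bounded size, while all the numbers `p + h + a` with `h ∈ {0} ∪ H`, `a ∈ S`, have a bounded number of prime factors.

The theorem is a case of a theorem of the starting files (`Pool.Agent.TH882.FinG2`).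
-/

set_option autoImplicit false

open Finset Filter Topology

namespace Pool.Agent.Results.MP_3efbeb_nt.AlmostAllThirdMembers

/-- No local obstruction: for every prime `l` there is an integer `y` such that `l` divides neither `y` nor `y + k` nor any
`y + a`, `a ∈ S`. -/
def LocallyPossible (S : Finset ℤ) (k : ℕ) : Prop :=
  ∀ l : ℕ, l.Prime → ∃ y : ℤ, ¬ (l : ℤ) ∣ y ∧ ¬ (l : ℤ) ∣ y + k ∧ ∀ a ∈ S, ¬ (l : ℤ) ∣ y + a

/-- The primes `p ≤ x` for which `p + k` and all `p + h`, `h ∈ H`, are prime and all `p + h + a`, `h ∈ {0} ∪ H`, `a ∈ S`,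
are positive with at most `r` prime factors (with multiplicity). -/
def firstMembers (H S : Finset ℤ) (r k x : ℕ) : Set ℕ :=
  {p : ℕ | p ≤ x ∧ p.Prime ∧ (p + k).Prime ∧ (∀ h ∈ H, ∃ q : ℕ, q.Prime ∧ (q : ℤ) = p + h) ∧
    ∀ h ∈ insert 0 H, ∀ a ∈ S, 0 < (p : ℤ) + h + a ∧
      ArithmeticFunction.cardFactors ((p : ℤ) + h + a).toNat ≤ r}

/-- The integers `1 ≤ k ≤ κ x` without local obstruction such that for no set `H` of `m` nonzero integers of absolute value
at most `C` there are at least `x / (log x) ^ D` such primes. -/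
def exceptions (S : Finset ℤ) (m r C D κ x : ℕ) : Set ℕ :=
  {k : ℕ | (1 ≤ k ∧ k ≤ κ * x ^ 1) ∧ LocallyPossible S k ∧
    ¬ ∃ H : Finset ℤ, H.card = m ∧ (∀ h ∈ H, h ≠ 0 ∧ |h| ≤ C) ∧
      (x : ℝ) / Real.log x ^ D ≤ ((firstMembers H S r k x).ncard : ℝ)}

/-- **Prime tuples `(p, p + h, p + k)` next to almost primes, for almost all `k`.** Let `S` be a finite set of integers and
`m ≥ 0`. There are `r`, `C`, `D` such that for every `κ` and all `1 ≤ k ≤ κ x` without local obstruction, with at most
`o(x)` exceptions as `x → ∞`, there is a set `H` of `m` nonzero integers of absolute value at most `C` such that for at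
least `x / (log x) ^ D` primes `p ≤ x` the number `p + k` and all `p + h`, `h ∈ H`, are prime and all `p + h + a`,
`h ∈ {0} ∪ H`, `a ∈ S`, have at most `r` prime factors. -/
theorem result (S : Finset ℤ) (m : ℕ) : ∃ r C D : ℕ, ∀ κ : ℕ,
    Tendsto (fun x : ℕ => ((exceptions S m r C D κ x).ncard : ℝ) / x) atTop (𝓝 0) := by
  obtain ⟨r, C, D, h⟩ := Pool.Agent.X15.SysS.FinP.finp Polynomial.X (by simp) (by simp) (fun n => n)
    (fun y => y) (fun n => by simp) (fun y => by simp) S m
  refine ⟨r, C, D, fun κ => ?_⟩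
  have h1 := h κ
  rw [Polynomial.natDegree_X] at h1
  simp only [pow_one] at h1
  refine h1.congr fun x => ?_
  have : Pool.Agent.X15.SysS.FinP.Ex (fun n => n) (fun y => y) 1 S m r C D κ x =
      exceptions S m r C D κ x := rfl
  rw [this]

end Pool.Agent.Results.MP_3efbeb_nt.AlmostAllThirdMembers
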