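import Pool.Agent.X119.Dig

set_option autoImplicit false

/-!
# Almost prime triples and quadruples with restricted digits

There are `c > 0` and `r₀` such that for all `r ≥ r₀`, all bases `b` and all large `K` the following
holds for ALL choices of sets `A 0, ..., A (K - 1)` of digits with `∏ |A i| ≥ exp (- c K) b ^ K` and for
`H = {0, 2, 6}` (`k = 3`) and `H = {0, 2, 6, 8}` (`k = 4`): the integers `n < b ^ K` whose `i`-th digit
belongs to `A i` for all `i < K`, such that all `n + h`, `h ∈ H`, have at most `r` prime factors, all larger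
than `n ^ (1 / r)`, have the expected order `∏ |A i| / K ^ k` (if the last digit can be chosen without a
local obstruction at the base), and at most `C ∏ |A i| / K ^ k` of the integers with these digits are such
that all `n + h` are primes.
-/

namespace Pool.Agent.Results.MP_3efbeb_nt.PrescribedDigits

open Finset Filter
open Pool.Agent.Y816.PD (NA ND)

/-- All `n + h`, `h ∈ H`, have at most `r` prime factors (with multiplicity), all of them larger than
`n ^ (1 / r)`. -/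
def Almost (H : Finset ℕ) (r : ℕ) : Set ℕ :=
  {n | ∀ h ∈ H, (∀ p : ℕ, p.Prime → p ∣ n + h → (n : ℝ) ^ (1 / (r : ℝ)) < (p : ℝ)) ∧
    (n + h).primeFactorsList.length ≤ r}

/-- All `n + h`, `h ∈ H`, are primes. -/
def S (H : Finset ℕ) : Set ℕ := {n | ∀ h ∈ H, (n + h).Prime}

/-- no local obstruction -/
lemma adm (H : Finset ℕ) (hH : H = {0, 2, 6} ∨ H = {0, 2, 6, 8}) (p : ℕ) (hp : p.Prime) :
    ∃ m : ℕ, ∀ h ∈ H, ¬ p ∣ m + h := by
  have h1 : ∀ h ∈ H, h = 0 ∨ h = 2 ∨ h = 6 ∨ h = 8 := by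
    intro h hh
    rcases hH with rfl | rfl <;> simp only [mem_insert, mem_singleton] at hh <;> omega
  rcases lt_or_ge p 30 with h30 | h30
  · refine ⟨101, fun h hh hd => ?_⟩
    have := (Nat.prime_dvd_prime_iff_eq hp
      (by rcases h1 h hh with rfl | rfl | rfl | rfl <;> norm_num)).1 hd
    omega
  · refine ⟨5, fun h hh hd => ?_⟩
    have := h1 h hh
    have := Nat.le_of_dvd (by omega) hd
    omega

/-- **Restricted digits.** -/
theorem result (H : Finset ℕ) (hH : H = {0, 2, 6} ∨ H = {0, 2, 6, 8}) :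
    ∃ c : ℝ, 0 < c ∧ ∃ r₀ : ℕ, 2 ≤ r₀ ∧ ∀ r : ℕ, r₀ ≤ r → ∀ b : ℕ, 2 ≤ b → ∃ κ C : ℝ, 0 < κ ∧ 0 < C ∧
      ∀ᶠ K : ℕ in atTop, ∀ A : ℕ → Finset ℕ, (∀ i < K, A i ⊆ range b) →
        (b : ℝ) ^ K ≤ Real.exp (c * K) * NA K A →
        ((∃ d ∈ A 0, ∀ h ∈ H, (d + h).Coprime b) →
          κ * NA K A / (K : ℝ) ^ H.card ≤ ND b K A (Almost H r)) ∧
        (ND b K A (S H) : ℝ) ≤ C * NA K A / (K : ℝ) ^ H.card := by
  obtain ⟨c, hc, r₀, hr₀, h⟩ := Pool.Agent.Y816.PD.digits_tuple H (adm H hH) H.card rfl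
  refine ⟨c, hc, r₀, hr₀, fun r hr b hb => ?_⟩
  obtain ⟨κ, C, hκ, hC, h1⟩ := h r hr b hb
  refine ⟨κ, C, hκ, hC, ?_⟩
  filter_upwards [h1] with K hK A hA hprod
  obtain ⟨h2, h3⟩ := hK A hA hprod
  refine ⟨h2, (Pool.Agent.X119.Dig.nd_mono b K A ?_).trans h3⟩
  intro n hn h hh p hp hd
  have h0 : (0 : ℕ) ∈ H := by rcases hH with rfl | rfl <;> simp
  exact Pool.Agent.X119.Dig.prime_rough (hr₀.trans hr) (hn 0 h0).two_le (hn h hh) (Nat.le_add_right _ _) hp hd

end Pool.Agent.Results.MP_3efbeb_nt.PrescribedDigits
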