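import Pool.Agent.X28.NT.Far3

/-!
# At every scale: the numbers far from all differences of two primes are sum-free, or almost all admissible triples,
quadruples and quintuples of bounded diameter are patterns of primes

Let `N` be large. Call `d` a difference at the scale `N` if `p` and `p + d` are both prime for at least
`N ^ (1 - η)` numbers `p ≤ 2 N`, and call `h` isolated if `C < h` and no difference at the scale `N` is within
distance `C` of `h`. Nobody expects isolated `h ≤ N / 2` to exist. For every large `N` at least one of the following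
two statements holds, with constants that do not depend on `N`.

(A) If `h` and `k` are isolated, `h + k ≤ N / 2`, then `h + k` is not isolated. (So the isolated `h ≤ N / 2` are a
sum-free set.)

(B) Almost all admissible quintuples are patterns of primes: for every `w`, `H` with `w + H ≤ L` all the admissible
quintuples `x` of different numbers of `(w, w + H]`, with at most `K₀ H ^ (5 - 1 / K₀)` exceptions, are such that
`n + x_1, …, n + x_5` are all prime for at least `N ^ (1 - η)` numbers `n ≤ 2 N`. Moreover of any `T` classes of `K`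
shifts below `L` (the shifts of all the classes together form an admissible set) more than `M` classes are hit at the
same time by primes `n + X g (σ g)`, whenever `6 M < 5 T` (so, for `T ≤ 5`, all the classes).

Admissible is the necessary condition of the question. Every triple or quadruple of a quintuple as in (B) is a pattern
of primes as well.

Proof: the coloured Maynard-Tao theorem of the starting files with the constant `18 / 5` for constant terms as large
as the variable (`Pool.Agent.Y827.GS.lamF0`) is applied to three copies of the classes, at the places `0`, `h`,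
`h + k`. If `h`, `k`, `h + k` are isolated then all the classes which are hit are in the same copy. A theorem of Erdős
on complete `5`-partite subhypergraphs (proved here) gives the bound for the number of the exceptional quintuples.
-/

set_option autoImplicit false

namespace Pool.Agent.Results.MP_3efbeb_nt.SumFreeOrFiveTuples

open Filter

/-- `p` and `p + d` are both prime for at least `N ^ (1 - η)` numbers `p ≤ 2 N` -/
def Difference (N : ℕ) (η : ℝ) (d : ℕ) : Prop :=
  (N : ℝ) ^ (1 - η) ≤ ({p : ℕ | p ≤ 2 * N ∧ p.Prime ∧ (p + d).Prime}.ncard : ℝ)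

/-- no difference is within distance `C` of `h` -/
def Isolated (C N : ℕ) (η : ℝ) (h : ℕ) : Prop :=
  C < h ∧ ∀ d : ℕ, h ≤ d + C → d ≤ h + C → ¬ Difference N η d

/-- the numbers `x i` do not occupy all the residue classes modulo any prime `p` -/
def Admissible {T : ℕ} (x : Fin T → ℕ) : Prop :=
  ∀ p : ℕ, p.Prime → ∃ r : ℤ, ∀ i, ¬ ((p : ℤ) ∣ r + x i)

/-- all `n + x i` are prime for at least `N ^ (1 - η)` numbers `1 ≤ n ≤ 2 N` -/
def Pattern {T : ℕ} (N : ℕ) (η : ℝ) (x : Fin T → ℕ) : Prop :=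
  (N : ℝ) ^ (1 - η) ≤ ({n : ℕ | 1 ≤ n ∧ n ≤ 2 * N ∧ ∀ i, (n + x i).Prime}.ncard : ℝ)

theorem result : ∃ K₀ : ℕ, 1 ≤ K₀ ∧ ∀ T M : ℕ, 1 ≤ T → 6 * M < 5 * T → ∃ K : ℕ, 1 ≤ K ∧
    ∀ L : ℕ, ∃ C : ℕ, ∀ η : ℝ, 0 < η → ∀ᶠ N : ℕ in atTop,
      -- (A)
      (∀ h k : ℕ, 2 * (h + k) ≤ N → Isolated C N η h → Isolated C N η k →
        ¬ Isolated C N η (h + k)) ∨
      -- (B)
      ((∀ w H : ℕ, 1 ≤ H → w + H ≤ L →
        ({x : Fin 5 → ℕ | (∀ i, w < x i ∧ x i ≤ w + H) ∧ Function.Injective x ∧
          Admissible x ∧ ¬ Pattern N η x}.ncard : ℝ) ≤ K₀ * (H : ℝ) ^ ((5 : ℝ) - 1 / (K₀ : ℝ))) ∧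
      (∀ X : Fin T → Fin K → ℕ, (∀ g i, X g i ≤ L) →
        Function.Injective (fun z : Fin T × Fin K => X z.1 z.2) →
        (∀ p : ℕ, p.Prime → ∃ r : ℤ, ∀ g i, ¬ ((p : ℤ) ∣ r + X g i)) →
        ∃ (S : Finset (Fin T)) (σ : Fin T → Fin K), M + 1 ≤ S.card ∧
          (N : ℝ) ^ (1 - η) ≤
            ({n : ℕ | 1 ≤ n ∧ n ≤ 2 * N ∧ ∀ g ∈ S, (n + X g (σ g)).Prime}.ncard : ℝ))) := by
  classical
  have hD : ∀ (N : ℕ) (η : ℝ) (d : ℕ), Difference N η d ↔ Pool.Agent.X28.NT.DifS N η d := by
    intro N η d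
    unfold Difference Pool.Agent.X28.NT.DifS
    have h1 : {p : ℕ | p ≤ 2 * N ∧ p.Prime ∧ (p + d).Prime} =
        ((Finset.Icc 1 (2 * N)).filter (fun p : ℕ => p.Prime ∧ (p + d).Prime) : Finset ℕ) := by
      ext p
      rw [Finset.coe_filter, Set.mem_ofPred_eq, Set.mem_ofPred_eq, Finset.mem_Icc]
      constructor
      · rintro ⟨h1, h2, h3⟩
        exact ⟨⟨h2.one_lt.le, h1⟩, h2, h3⟩
      · rintro ⟨⟨-, h1⟩, h2, h3⟩
        exact ⟨h1, h2, h3⟩
    rw [h1, Set.ncard_coe_finset]
  have hI : ∀ (C N : ℕ) (η : ℝ) (h : ℕ), Isolated C N η h ↔ Pool.Agent.X28.NT.Iso C N η h := by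
    intro C N η h
    unfold Isolated Pool.Agent.X28.NT.Iso
    simp only [hD]
  have hP : ∀ (N : ℕ) (η : ℝ) (x : Fin 5 → ℕ), Pattern N η x ↔ Pool.Agent.X28.NT.Tup N η x := by
    intro N η x
    unfold Pattern Pool.Agent.X28.NT.Tup
    have h1 : {n : ℕ | 1 ≤ n ∧ n ≤ 2 * N ∧ ∀ i, (n + x i).Prime} =
        ((Finset.Icc 1 (2 * N)).filter (fun n : ℕ => ∀ i, (n + x i).Prime) : Finset ℕ) := by
      ext n
      rw [Finset.coe_filter, Set.mem_ofPred_eq, Set.mem_ofPred_eq, Finset.mem_Icc, and_assoc]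
    rw [h1, Set.ncard_coe_finset]
  obtain ⟨K₀, hK₀, H⟩ := Pool.Agent.X28.NT.main3
  refine ⟨K₀, hK₀, fun T M hT hTM => ?_⟩
  obtain ⟨K, hK, H⟩ := H T M hT hTM
  refine ⟨K, hK, fun L => ?_⟩
  obtain ⟨C, H⟩ := H L
  refine ⟨C, fun η hη => ?_⟩
  filter_upwards [H η hη] with N hN
  rcases hN with hA | ⟨hB1, hB2⟩
  · left
    intro h k hhk h1 h2 h3
    exact hA h k hhk ((hI _ _ _ _).1 h1) ((hI _ _ _ _).1 h2) ((hI _ _ _ _).1 h3)
  · right
    refine ⟨fun w W h1 h2 => ?_, fun X h1 h2 h3 => ?_⟩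
    · have h4 : {x : Fin 5 → ℕ | (∀ i, w < x i ∧ x i ≤ w + W) ∧ Function.Injective x ∧
          Admissible x ∧ ¬ Pattern N η x} =
          ((Fintype.piFinset (fun _ : Fin 5 => Finset.Ioc w (w + W))).filter
            (fun x => Function.Injective x ∧ Pool.Agent.X28.NT.Adm x ∧
              ¬ Pool.Agent.X28.NT.Tup N η x) : Finset (Fin 5 → ℕ)) := by
        ext x
        rw [Finset.coe_filter, Set.mem_ofPred_eq, Set.mem_ofPred_eq, Fintype.mem_piFinset]
        simp only [Finset.mem_Ioc, hP]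
        rfl
      rw [h4, Set.ncard_coe_finset]
      exact hB1 w W h1 h2
    · obtain ⟨S, σ, hS, h4⟩ := hB2 X h1 h2 h3
      refine ⟨S, σ, hS, ?_⟩
      have h5 : {n : ℕ | 1 ≤ n ∧ n ≤ 2 * N ∧ ∀ g ∈ S, (n + X g (σ g)).Prime} =
          ((Finset.Icc 1 (2 * N)).filter
            (fun n : ℕ => ∀ g ∈ S, (n + X g (σ g)).Prime) : Finset ℕ) := by
        ext n
        rw [Finset.coe_filter, Set.mem_ofPred_eq, Set.mem_ofPred_eq, Finset.mem_Icc, and_assoc]
      rw [h5, Set.ncard_coe_finset]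
      exact h4

end Pool.Agent.Results.MP_3efbeb_nt.SumFreeOrFiveTuples
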